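import Pool.Agent.TH199.LT.NearSys

set_option autoImplicit false

open MeasureTheory Set

namespace Pool.Agent.Results.MP_cfe56d_mp.OptimizersOneDim

/-- `u` is the continuous representative of a function of the Sobolev space `H¹(ℝ)` with weak
derivative `g`. -/
structure IsSobolev (u g : ℝ → ℂ) : Prop where
  memLp : MemLp u 2
  memLp_deriv : MemLp g 2
  integral_deriv : ∀ a b, u b - u a = ∫ x in a..b, g x

/-- A density matrix `γ = ∑ |u_n⟩⟨u_n|` of finite rank with `0 ≤ γ ≤ 1` and finite kinetic energy: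
the functions `u_n` of `H¹(ℝ)` are pairwise orthogonal and `‖u_n‖² = ν_n ≤ 1`. -/
structure IsDensityMatrix {N : ℕ} (ν : Fin N → ℝ) (u g : Fin N → ℝ → ℂ) : Prop where
  le_one : ∀ n, ν n ≤ 1
  sobolev : ∀ n, IsSobolev (u n) (g n)
  orthogonal : ∀ n m, ∫ x, star (u n x) * u m x = if n = m then (ν n : ℂ) else 0

/-- `N` functions of `H¹(ℝ)`, orthonormal in `L²(ℝ)`. -/
structure IsOrthonormal {N : ℕ} (u g : Fin N → ℝ → ℂ) : Prop where
  sobolev : ∀ n, IsSobolev (u n) (g n)
  orthonormal : ∀ n m, ∫ x, star (u n x) * u m x = if n = m then (1 : ℂ) else 0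

/-- The kinetic energy. -/
noncomputable def kinetic {N : ℕ} (g : Fin N → ℝ → ℂ) : ℝ := ∑ n, ∫ x, ‖g n x‖ ^ 2

/-- The integral of the third power of the density `∑ |u_n|²`. -/
noncomputable def densityCube {N : ℕ} (u : Fin N → ℝ → ℂ) : ℝ := ∫ x, (∑ n, ‖u n x‖ ^ 2) ^ 3

/-- The functions `z √(κ / (π cosh (κ (x - x₀))))` with `κ > 0`, `|z| = 1`. -/
def IsSoliton (f : ℝ → ℂ) : Prop :=
  ∃ κ x₀ : ℝ, 0 < κ ∧ ∃ z : ℂ, ‖z‖ = 1 ∧
    ∀ x, f x = z * (Real.sqrt (κ / (Real.pi * Real.cosh (κ * (x - x₀)))) : ℂ)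

lemma density {N : ℕ} {u g : Fin N → ℝ → ℂ} (h : IsOrthonormal u g) :
    IsDensityMatrix (fun _ => 1) u g :=
  ⟨fun _ => le_rfl, h.sobolev, fun n m => by
    rw [h.orthonormal n m]; simp⟩

lemma density_iff {N : ℕ} {ν : Fin N → ℝ} {u g : Fin N → ℝ → ℂ} (h : IsDensityMatrix ν u g) :
    kinetic g = Real.pi ^ 2 / 4 * densityCube u ↔
      (∀ n x, u n x = 0) ∨ ∃ n₀, IsSoliton (u n₀) ∧ ∀ n, n ≠ n₀ → ∀ x, u n x = 0 := by
  constructor
  · intro heq
    rcases TH199.LT.family_form ν h.le_one u g (fun n => (h.sobolev n).memLp)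
      (fun n => (h.sobolev n).memLp_deriv) (fun n => (h.sobolev n).integral_deriv)
      h.orthogonal heq with h1 | ⟨n₀, -, h2, κ, x₀, hκ, z, hz, h3⟩
    · exact Or.inl h1
    · exact Or.inr ⟨n₀, ⟨κ, x₀, hκ, z, hz, h3⟩, h2⟩
  · intro h1
    refine TH199.LT.family_conv u g (fun n => (h.sobolev n).memLp_deriv)
      (fun n => (h.sobolev n).integral_deriv) ?_
    rcases h1 with h1 | ⟨n₀, ⟨κ, x₀, hκ, z, hz, h3⟩, h2⟩
    · exact Or.inl h1
    · exact Or.inr ⟨n₀, h2, κ, x₀, hκ, z, hz, h3⟩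

lemma density_le {N : ℕ} {ν : Fin N → ℝ} {u g : Fin N → ℝ → ℂ} (h : IsDensityMatrix ν u g) :
    Real.pi ^ 2 / 4 * densityCube u ≤ kinetic g := by
  have h1 := TH199.LT.sys_of_family ν h.le_one u g (fun n => (h.sobolev n).memLp)
    (fun n => (h.sobolev n).memLp_deriv) (fun n => (h.sobolev n).integral_deriv) h.orthogonal
  have h2 := (Pool.Helper490.Calib.sharp_H1 _ _ h1.hu2 h1.hg2 h1.hug h1.hbes).2
  simp only [Pool.Helper490.Calib.realify_norm] at h2
  rwa [integral_finsetSum _ fun n _ => (h.sobolev n).memLp_deriv.integrable_norm_pow (by norm_num)]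
    at h2

lemma orthonormal_iff {N : ℕ} (hN : 1 ≤ N) {u g : Fin N → ℝ → ℂ} (h : IsOrthonormal u g) :
    kinetic g = Real.pi ^ 2 / 4 * densityCube u ↔ N = 1 ∧ ∀ n, IsSoliton (u n) := by
  have hne : ∀ n, ¬ ∀ x, u n x = 0 := by
    intro n h0
    have h1 := h.orthonormal n n
    simp [h0] at h1
  rw [density_iff (density h)]
  constructor
  · rintro (h1 | ⟨n₀, h1, h2⟩)
    · exact absurd (h1 ⟨0, hN⟩) (hne _)
    · have h3 : ∀ n, n = n₀ := fun n => by
        by_contra h4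
        exact hne n (h2 n h4)
      refine ⟨?_, fun n => by rw [h3 n]; exact h1⟩
      have h4 : Fintype.card (Fin N) ≤ 1 :=
        Fintype.card_le_one_iff.2 fun a b => (h3 a).trans (h3 b).symm
      rw [Fintype.card_fin] at h4
      omega
  · rintro ⟨rfl, h1⟩
    exact Or.inr ⟨0, h1 0, fun n hn => absurd (Subsingleton.elim n 0) hn⟩

/-- There is an optimiser for one function. -/
lemma exists_one : ∃ u g : Fin 1 → ℝ → ℂ, IsOrthonormal u g ∧
    kinetic g = Real.pi ^ 2 / 4 * densityCube u := by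
  have hpi := Real.pi_pos
  have hsol : ∀ x, ‖((TH199.LT.sol 1 0 x : ℝ) : ℂ)‖ ^ 2 = 1 / Real.pi * (Real.cosh x)⁻¹ := by
    intro x
    rw [Complex.norm_real, Real.norm_eq_abs, sq_abs, TH199.LT.sol_sq one_pos]
    simp
  have hsol' : ∀ x, ‖((TH199.LT.sol' 1 0 x : ℝ) : ℂ)‖ ^ 2 =
      1 / Real.pi * Pool.Helper490.Sech.w' x ^ 2 := by
    intro x
    rw [Complex.norm_real, Real.norm_eq_abs, sq_abs, TH199.LT.sol', mul_pow,
      Real.sq_sqrt (by positivity)]
    simp
  have hc : Continuous (TH199.LT.sol 1 0) :=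
    continuous_iff_continuousAt.2 fun x => (TH199.LT.sol_deriv one_pos 0 x).continuousAt
  have hc' : Continuous (TH199.LT.sol' 1 0) := by
    unfold TH199.LT.sol'
    exact continuous_const.mul (((Pool.Helper490.Sech.w'_cont).comp (by fun_prop)).mul
      continuous_const)
  have hcC : Continuous fun x => ((TH199.LT.sol 1 0 x : ℝ) : ℂ) :=
    Complex.continuous_ofReal.comp hc
  have hcC' : Continuous fun x => ((TH199.LT.sol' 1 0 x : ℝ) : ℂ) :=
    Complex.continuous_ofReal.comp hc'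
  have hO : IsOrthonormal (fun (_ : Fin 1) x => ((TH199.LT.sol 1 0 x : ℝ) : ℂ))
      (fun (_ : Fin 1) x => ((TH199.LT.sol' 1 0 x : ℝ) : ℂ)) := by
    refine ⟨fun _ => ⟨?_, ?_, ?_⟩, fun n m => ?_⟩
    · rw [memLp_two_iff_integrable_sq_norm hcC.aestronglyMeasurable]
      simp only [hsol]
      exact Pool.Helper490.Sech.int_sech.const_mul _
    · rw [memLp_two_iff_integrable_sq_norm hcC'.aestronglyMeasurable]
      simp only [hsol']
      exact Pool.Helper490.Sech.int_w'_sq.const_mul _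
    · intro a b
      rw [intervalIntegral.integral_eq_sub_of_hasDerivAt
        (f := fun x => ((TH199.LT.sol 1 0 x : ℝ) : ℂ))]
      · intro x _
        exact (TH199.LT.sol_deriv one_pos 0 x).ofReal_comp
      · exact hcC'.intervalIntegrable _ _
    · rw [if_pos (Subsingleton.elim n m)]
      have h1 : ∀ x, star ((TH199.LT.sol 1 0 x : ℝ) : ℂ) * ((TH199.LT.sol 1 0 x : ℝ) : ℂ) =
          ((TH199.LT.sol 1 0 x ^ 2 : ℝ) : ℂ) := by
        intro x
        have : star ((TH199.LT.sol 1 0 x : ℝ) : ℂ) = ((TH199.LT.sol 1 0 x : ℝ) : ℂ) :=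
          Complex.conj_ofReal _
        rw [this]
        push_cast
        ring
      simp only [h1]
      rw [integral_complex_ofReal, TH199.LT.integral_sol_sq one_pos]
      simp
  refine ⟨_, _, hO, (orthonormal_iff le_rfl hO).2 ⟨rfl, fun _ => ⟨1, 0, one_pos, 1, by simp, ?_⟩⟩⟩
  intro x
  rw [one_mul]
  rfl

/-- **The cases of equality in the sharp one-dimensional kinetic inequality.** For every density
matrix of finite rank with `0 ≤ γ ≤ 1` the kinetic energy is at least `π² / 4 * ∫ ρ³`, with equality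
only for `γ = 0` and for the projection onto one soliton. For every `N ≥ 1` the number `π² / 4` is
the best constant for `N` orthonormal functions; equality holds for such a family if and only if
`N = 1` and the function is a soliton, and it does occur for `N = 1`. -/
theorem result :
    (∀ (N : ℕ) (ν : Fin N → ℝ) (u g : Fin N → ℝ → ℂ), IsDensityMatrix ν u g →
      Real.pi ^ 2 / 4 * densityCube u ≤ kinetic g ∧
      (kinetic g = Real.pi ^ 2 / 4 * densityCube u ↔
        (∀ n x, u n x = 0) ∨ ∃ n₀, IsSoliton (u n₀) ∧ ∀ n, n ≠ n₀ → ∀ x, u n x = 0)) ∧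
    ∀ N : ℕ, 1 ≤ N →
      IsGreatest {K : ℝ | ∀ u g : Fin N → ℝ → ℂ, IsOrthonormal u g →
        K * densityCube u ≤ kinetic g} (Real.pi ^ 2 / 4) ∧
      (∀ u g : Fin N → ℝ → ℂ, IsOrthonormal u g →
        (kinetic g = Real.pi ^ 2 / 4 * densityCube u ↔ N = 1 ∧ ∀ n, IsSoliton (u n))) ∧
      ((∃ u g : Fin N → ℝ → ℂ, IsOrthonormal u g ∧
        kinetic g = Real.pi ^ 2 / 4 * densityCube u) ↔ N = 1) := by
  refine ⟨fun N ν u g h => ⟨density_le h, density_iff h⟩, fun N hN => ⟨⟨?_, ?_⟩, ?_, ?_, ?_⟩⟩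
  · intro u g h
    exact density_le (density h)
  · intro K hK
    refine TH199.LT.le_of_system hN fun u g hu hg hug ho => ?_
    exact hK u g ⟨fun n => ⟨hu n, hg n, hug n⟩, ho⟩
  · intro u g h
    exact orthonormal_iff hN h
  · rintro ⟨u, g, h, heq⟩
    exact ((orthonormal_iff hN h).1 heq).1
  · rintro rfl
    exact exists_one

end Pool.Agent.Results.MP_cfe56d_mp.OptimizersOneDim
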