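import Pool.Agent.TH199.LT.Sc3
import Pool.Agent.TH199.LT.Sc7
import Pool.Agent.TH199.LT.Sc10
import Pool.Agent.TH199.LT.Form

set_option autoImplicit false

open MeasureTheory Set

namespace Pool.Agent.Results.MP_cfe56d_mp.SemiclassicalGradient

/-- `u` is the continuous representative of a function of the Sobolev space `H¹(ℝ)` with weak
derivative `g`. -/
structure IsSobolev (u g : ℝ → ℂ) : Prop where
  memLp : MemLp u 2
  memLp_deriv : MemLp g 2
  integral_deriv : ∀ a b, u b - u a = ∫ x in a..b, g x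

/-- A density matrix `γ = ∑ |u_n⟩⟨u_n|` of finite rank with `0 ≤ γ ≤ 1` and finite kinetic energy:
the functions `u_n` of `H¹(ℝ)` are pairwise orthogonal and `‖u_n‖² = ν_n ≤ 1`. -/
structure IsDensityMatrix {N : ℕ} (ν : Fin N → ℝ) (u g : Fin N → ℝ → ℂ) : Prop where
  le_one : ∀ n, ν n ≤ 1
  sobolev : ∀ n, IsSobolev (u n) (g n)
  orthogonal : ∀ n m, ∫ x, star (u n x) * u m x = if n = m then (ν n : ℂ) else 0

/-- `N` functions of `H¹(ℝ)`, orthonormal in `L²(ℝ)`. -/
structure IsOrthonormal {N : ℕ} (u g : Fin N → ℝ → ℂ) : Prop where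
  sobolev : ∀ n, IsSobolev (u n) (g n)
  orthonormal : ∀ n m, ∫ x, star (u n x) * u m x = if n = m then (1 : ℂ) else 0

/-- The density `ρ = ∑ |u_n|²`. -/
noncomputable def density {N : ℕ} (u : Fin N → ℝ → ℂ) (x : ℝ) : ℝ := ∑ n, ‖u n x‖ ^ 2

/-- The kinetic energy `∑ ∫ |u_n'|²`. -/
noncomputable def kinetic {N : ℕ} (g : Fin N → ℝ → ℂ) : ℝ := ∑ n, ∫ x, ‖g n x‖ ^ 2

/-- The integral `∫ ρ³`. -/
noncomputable def densityCube {N : ℕ} (u : Fin N → ℝ → ℂ) : ℝ := ∫ x, density u x ^ 3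

/-- The gradient term `∫ |(√ρ)'|²`. -/
noncomputable def gradientTerm {N : ℕ} (u : Fin N → ℝ → ℂ) : ℝ :=
  ∫ x, (deriv (fun y => Real.sqrt (density u y)) x) ^ 2

/-- The constants `κ` such that `κ ∫ ρ³ ≤ ∑ ∫ |u_n'|² + C ∫ |(√ρ)'|²` for every finite family of
functions of `H¹(ℝ)` which is orthonormal in `L²(ℝ)`. -/
def Admissible (C κ : ℝ) : Prop :=
  ∀ (N : ℕ) (u g : Fin N → ℝ → ℂ), IsOrthonormal u g →
    κ * densityCube u ≤ kinetic g + C * gradientTerm u

lemma toDensity {N : ℕ} {u g : Fin N → ℝ → ℂ} (h : IsOrthonormal u g) :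
    IsDensityMatrix (fun _ => 1) u g :=
  ⟨fun _ => le_rfl, h.sobolev, fun n m => by
    rw [h.orthonormal n m]; simp⟩

lemma main {N : ℕ} {ν : Fin N → ℝ} {u g : Fin N → ℝ → ℂ} (h : IsDensityMatrix ν u g) :
    (MemLp (fun x => Real.sqrt (density u x)) 2 ∧
      MemLp (deriv fun x => Real.sqrt (density u x)) 2 ∧
      (∀ a b, Real.sqrt (density u b) - Real.sqrt (density u a) =
        ∫ x in a..b, deriv (fun x => Real.sqrt (density u x)) x)) ∧
      Integrable (fun x => density u x ^ 3) ∧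
      gradientTerm u ≤ kinetic g ∧
      Real.pi ^ 2 / 3 * densityCube u ≤ kinetic g + 3 * gradientTerm u := by
  obtain ⟨h1, h2, h3, h4, h5, h6⟩ := TH199.LT.family_sc ν h.le_one u g
    (fun n => (h.sobolev n).memLp) (fun n => (h.sobolev n).memLp_deriv)
    (fun n => (h.sobolev n).integral_deriv) h.orthogonal
  exact ⟨⟨h1, h2, h3⟩, h4, h5, h6⟩

lemma sharp {N : ℕ} {u g : Fin N → ℝ → ℂ} (h : IsOrthonormal u g) :
    Real.pi ^ 2 / 4 * densityCube u ≤ kinetic g := by
  have h0 := toDensity h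
  have h1 := TH199.LT.sys_of_family _ h0.le_one u g (fun n => (h.sobolev n).memLp)
    (fun n => (h.sobolev n).memLp_deriv) (fun n => (h.sobolev n).integral_deriv) h0.orthogonal
  have h2 := (Pool.Helper490.Calib.sharp_H1 _ _ h1.hu2 h1.hg2 h1.hug h1.hbes).2
  simp only [Pool.Helper490.Calib.realify_norm] at h2
  rwa [integral_finsetSum _ fun n _ => (h.sobolev n).memLp_deriv.integrable_norm_pow (by norm_num)]
    at h2

lemma cube_nonneg {N : ℕ} (u : Fin N → ℝ → ℂ) : 0 ≤ densityCube u :=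
  integral_nonneg fun x => by
    have : 0 ≤ density u x := Finset.sum_nonneg fun n _ => sq_nonneg _
    positivity

lemma gradient_nonneg {N : ℕ} (u : Fin N → ℝ → ℂ) : 0 ≤ gradientTerm u :=
  integral_nonneg fun _ => sq_nonneg _

lemma upper {C κ : ℝ} (h : Admissible C κ) :
    κ ≤ (1 + C) * (Real.pi ^ 2 / 4) ∧ κ ≤ Real.pi ^ 2 / 3 :=
  TH199.LT.Tst.test_one fun M => TH199.LT.Tst.test_bound
    (fun N u g hu hg hug ho => h N u g ⟨fun n => ⟨hu n, hg n, hug n⟩, ho⟩) M

lemma not_admissible {C : ℝ} (hC : C < 1) : ¬ Admissible C (Real.pi ^ 2 / 3) := by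
  intro h
  have h1 : Admissible (max C 0) (Real.pi ^ 2 / 3) := by
    intro N u g hu
    have h2 := h N u g hu
    have h3 := mul_le_mul_of_nonneg_right (le_max_left C 0) (gradient_nonneg u)
    linarith
  exact TH199.LT.Tst.not_lt_one (le_max_right C 0) (max_lt hC one_pos)
    (fun N u g hu hg hug ho => h1 N u g ⟨fun n => ⟨hu n, hg n, hug n⟩, ho⟩)

lemma not_admissible_one {C : ℝ} (hC : 0 < C) : ¬ Admissible C ((1 + C) * (Real.pi ^ 2 / 4)) :=
  fun h => TH199.LT.Two.not_pos hC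
    (fun N u g hu hg hug ho => h N u g ⟨fun n => ⟨hu n, hg n, hug n⟩, ho⟩)

/-- **The Lieb-Thirring inequality with the semiclassical constant and a gradient term.**
For every density matrix of finite rank with `0 ≤ γ ≤ 1` the square root of the density is in
`H¹(ℝ)` and `(π² / 3) ∫ ρ³ ≤ ∑ ∫ |u_n'|² + 3 ∫ |(√ρ)'|²`. The semiclassical constant `π² / 3` is
the best constant for every coefficient `C ≥ 3` of the gradient term, and it is not admissible
for any `C < 1`; the one-particle constant `(1 + C) π² / 4` is the best constant for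
`-1 ≤ C ≤ 0`, and it is not admissible for any `C > 0`; for `0 ≤ C ≤ 3` the best constant is
between `(1 + C / 9) π² / 4` and `min ((1 + C) π² / 4) (π² / 3)`, and for `0 < C < 1` it is not
equal to this minimum. -/
theorem result :
    (∀ (N : ℕ) (ν : Fin N → ℝ) (u g : Fin N → ℝ → ℂ), IsDensityMatrix ν u g →
      (MemLp (fun x => Real.sqrt (density u x)) 2 ∧
        MemLp (deriv fun x => Real.sqrt (density u x)) 2 ∧
        (∀ a b, Real.sqrt (density u b) - Real.sqrt (density u a) =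
          ∫ x in a..b, deriv (fun x => Real.sqrt (density u x)) x)) ∧
      Integrable (fun x => density u x ^ 3) ∧
      gradientTerm u ≤ kinetic g ∧
      Real.pi ^ 2 / 3 * densityCube u ≤ kinetic g + 3 * gradientTerm u) ∧
    (∀ C : ℝ, 3 ≤ C → IsGreatest {κ | Admissible C κ} (Real.pi ^ 2 / 3)) ∧
    (∀ C : ℝ, C < 1 → ¬ Admissible C (Real.pi ^ 2 / 3)) ∧
    (∀ C : ℝ, 0 < C → ¬ Admissible C ((1 + C) * (Real.pi ^ 2 / 4))) ∧
    (∀ C : ℝ, -1 ≤ C → C ≤ 0 →
      IsGreatest {κ | Admissible C κ} ((1 + C) * (Real.pi ^ 2 / 4))) ∧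
    (∀ C : ℝ, 0 ≤ C → C ≤ 3 → Admissible C ((1 + C / 9) * (Real.pi ^ 2 / 4)) ∧
      ∀ κ, Admissible C κ → κ ≤ min ((1 + C) * (Real.pi ^ 2 / 4)) (Real.pi ^ 2 / 3)) := by
  refine ⟨fun N ν u g h => main h, fun C hC => ⟨?_, fun κ hκ => (upper hκ).2⟩,
    fun C hC => not_admissible hC, fun C hC => not_admissible_one hC, fun C hC1 hC0 => ⟨?_, fun κ hκ => (upper hκ).1⟩, fun C hC0 hC3 => ⟨?_, fun κ hκ =>
      le_min (upper hκ).1 (upper hκ).2⟩⟩
  · intro N u g h
    have h1 := (main (toDensity h)).2.2.2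
    have h2 := gradient_nonneg u
    nlinarith
  · intro N u g h
    have h1 := (main (toDensity h)).2.2.1
    have h2 := sharp h
    have h3 := gradient_nonneg u
    have h4 : (1 + C) * (Real.pi ^ 2 / 4 * densityCube u) ≤ (1 + C) * kinetic g :=
      mul_le_mul_of_nonneg_left h2 (by linarith)
    nlinarith
  · intro N u g h
    have h1 := (main (toDensity h)).2.2.2
    have h2 := sharp h
    have h3 : C / 3 * (Real.pi ^ 2 / 3 * densityCube u) ≤
        C / 3 * (kinetic g + 3 * gradientTerm u) := mul_le_mul_of_nonneg_left h1 (by positivity)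
    have h4 : (1 - C / 3) * (Real.pi ^ 2 / 4 * densityCube u) ≤ (1 - C / 3) * kinetic g :=
      mul_le_mul_of_nonneg_left h2 (by linarith)
    nlinarith

end Pool.Agent.Results.MP_cfe56d_mp.SemiclassicalGradient
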