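import Pool.Agent.TH662.LT.Half

set_option autoImplicit false

open MeasureTheory Set Real

namespace Pool.Agent.Results.MP_cfe56d_mp.SharpIntervals

/-- `u` is the continuous representative of a function of the Sobolev space `H¹(a, b)` with weak
derivative `g`. -/
structure IsSobolevOn (a b : ℝ) (u g : ℝ → ℂ) : Prop where
  memLp_deriv : MemLp g 2 (volume.restrict (Icc a b))
  integral_deriv : ∀ x ∈ Icc a b, u x = u a + ∫ t in a..x, g t

/-- `u` is the continuous representative of a function of the Sobolev space `H¹(0, ∞)` with weak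
derivative `g`. -/
structure IsSobolevHalf (u g : ℝ → ℂ) : Prop where
  memLp : MemLp u 2 (volume.restrict (Ioi 0))
  memLp_deriv : MemLp g 2 (volume.restrict (Ioi 0))
  integral_deriv : ∀ x, 0 ≤ x → u x = u 0 + ∫ t in (0:ℝ)..x, g t

/-- The kinetic inequality with constant `c` and boundary energies `α ρ(a)² + β ρ(b)²`, on every
bounded interval, for every number of orthonormal functions. -/
def FamilyInequality (c α β : ℝ) : Prop :=
  ∀ a b : ℝ, a < b → ∀ (N : ℕ) (u g : Fin N → ℝ → ℂ), (∀ n, IsSobolevOn a b (u n) (g n)) →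
    (∀ n m, ∫ x in a..b, star (u n x) * u m x = if n = m then (1 : ℂ) else 0) →
    c * ∫ x in a..b, (∑ n, ‖u n x‖ ^ 2) ^ 3 ≤ (∑ n, ∫ x in a..b, ‖g n x‖ ^ 2) +
      α * (∑ n, ‖u n a‖ ^ 2) ^ 2 + β * (∑ n, ‖u n b‖ ^ 2) ^ 2

/-- The same inequality for one normalised function. -/
def OneInequality (c α β : ℝ) : Prop :=
  ∀ a b : ℝ, a < b → ∀ u g : ℝ → ℂ, IsSobolevOn a b u g → ∫ x in a..b, ‖u x‖ ^ 2 = 1 →
    c * ∫ x in a..b, ‖u x‖ ^ 6 ≤ (∫ x in a..b, ‖g x‖ ^ 2) + α * ‖u a‖ ^ 4 + β * ‖u b‖ ^ 4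

/-- The kinetic inequality on the half-line with constant `c` and boundary energy `α ρ(0)²`, for
every number of orthonormal functions. -/
def FamilyInequalityHalf (c α : ℝ) : Prop :=
  ∀ (N : ℕ) (u g : Fin N → ℝ → ℂ), (∀ n, IsSobolevHalf (u n) (g n)) →
    (∀ n m, ∫ x in Ioi (0:ℝ), star (u n x) * u m x = if n = m then (1 : ℂ) else 0) →
    c * ∫ x in Ioi (0:ℝ), (∑ n, ‖u n x‖ ^ 2) ^ 3 ≤ (∑ n, ∫ x in Ioi (0:ℝ), ‖g n x‖ ^ 2) +
      α * (∑ n, ‖u n 0‖ ^ 2) ^ 2

/-- The same inequality for one normalised function. -/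
def OneInequalityHalf (c α : ℝ) : Prop :=
  ∀ u g : ℝ → ℂ, IsSobolevHalf u g → ∫ x in Ioi (0:ℝ), ‖u x‖ ^ 2 = 1 →
    c * ∫ x in Ioi (0:ℝ), ‖u x‖ ^ 6 ≤ (∫ x in Ioi (0:ℝ), ‖g x‖ ^ 2) + α * ‖u 0‖ ^ 4

lemma star_mul_self (z : ℂ) : star z * z = ((‖z‖ ^ 2 : ℝ) : ℂ) := by
  rw [mul_comm, ← Complex.normSq_eq_norm_sq]
  exact Complex.mul_conj _

lemma one_of_family {c α β : ℝ} (h : FamilyInequality c α β) : OneInequality c α β := by
  intro a b hab u g hu h1
  have h2 := h a b hab 1 (fun _ => u) (fun _ => g) (fun _ => hu) (fun n m => by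
    simp only [star_mul_self, intervalIntegral.integral_ofReal, h1]
    rw [if_pos (Subsingleton.elim n m)]
    exact Complex.ofReal_one)
  simp only [Finset.univ_unique, Finset.sum_singleton] at h2
  simp only [← pow_mul] at h2
  exact h2

lemma one_of_family_half {c α : ℝ} (h : FamilyInequalityHalf c α) : OneInequalityHalf c α := by
  intro u g hu h1
  have h2 := h 1 (fun _ => u) (fun _ => g) (fun _ => hu) (fun n m => by
    simp only [star_mul_self, integral_complex_ofReal, h1]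
    rw [if_pos (Subsingleton.elim n m)]
    exact Complex.ofReal_one)
  simp only [Finset.univ_unique, Finset.sum_singleton] at h2
  simp only [← pow_mul] at h2
  exact h2

lemma test_of_one {c α β : ℝ} (h : OneInequality c α β) {A B : ℝ} (hB : -(π / 2) < B)
    (hAB : B < A) (hA : A < π / 2) :
    4 * c * (A - B + (sin A * cos A - sin B * cos B)) ≤
      (A - B) ^ 2 * (A - B - (sin A * cos A - sin B * cos B)) +
      8 * (A - B) * (α * cos B ^ 2 + β * cos A ^ 2) := by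
  refine Pool.Agent.TH662.LT.test_interval (fun a b hab u g hg hug h1 => ?_) hB hAB hA
  have h2 := h a b hab u g ⟨hg, hug⟩ h1
  simp only [← pow_mul]
  norm_num
  linarith

lemma test_of_one_half {c α : ℝ} (h : OneInequalityHalf c α) {B : ℝ} (hB : -(π / 2) < B)
    (hB2 : B < π / 2) :
    4 * c * (π / 2 - B - sin B * cos B) ≤
      (π / 2 - B) ^ 2 * (π / 2 - B + sin B * cos B) + 8 * (π / 2 - B) * (α * cos B ^ 2) := by
  refine Pool.Agent.TH662.LT.test_half (fun u g hu hg hug h1 => ?_) hB hB2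
  have h2 := h u g ⟨hu, hg, hug⟩ h1
  simp only [← pow_mul]
  exact h2

lemma family_of_cond {θ α β : ℝ} (hθ : θ ∈ Ioo 0 π) (hα : 0 < α + θ / 4 * (cos θ / sin θ))
    (hαβ : (θ / (4 * sin θ)) ^ 2 ≤
      (α + θ / 4 * (cos θ / sin θ)) * (β + θ / 4 * (cos θ / sin θ))) :
    FamilyInequality (θ ^ 2 / 4) α β := by
  obtain ⟨ω, hω1, hω2, h1, h2⟩ := Pool.Agent.TH662.LT.exists_omega hθ hα hαβ
  intro a b hab N u g hu ho
  have hcont : ∀ n, ContinuousOn (u n) (Icc a b) := fun n =>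
    Pool.Agent.TH662.LT.cont_of_prim ((hu n).memLp_deriv.integrable (by norm_num)) hab.le
      (hu n).integral_deriv
  have hI : ∀ f : ℝ → ℂ, ∫ x in a..b, f x = ∫ x in Icc a b, f x := fun f => by
    rw [intervalIntegral.integral_of_le hab.le, integral_Icc_eq_integral_Ioc]
  have h3 := Pool.Agent.TH662.LT.family_of_bessel hab.le u g (fun n => (hu n).memLp_deriv)
    (fun n => (hu n).integral_deriv) (fun v => by
      have h4 := (Pool.Agent.TH662.LT.bessel_restrict (volume.restrict (Icc a b)) u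
        (fun n => (hcont n).aestronglyMeasurable measurableSet_Icc)
        (fun n => ((hcont n).norm.pow 2).integrableOn_compact isCompact_Icc)
        (fun n m => by rw [← hI]; exact ho n m) v).2
      rwa [intervalIntegral.integral_of_le hab.le, ← integral_Icc_eq_integral_Ioc])
    hθ.1 hω1 hω2
  rw [← h1] at h3
  have h5 := mul_le_mul_of_nonneg_right h2 (sq_nonneg (∑ n, ‖u n b‖ ^ 2))
  linarith

lemma half_of_cond {θ α : ℝ} (hθ : θ ∈ Ioo 0 π) (hα : -(θ / 4 * (cos θ / sin θ)) ≤ α) :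
    FamilyInequalityHalf (θ ^ 2 / 4) α := by
  intro N u g hu ho
  have h3 := (Pool.Agent.TH662.LT.half_of_orthonormal u g (fun n => (hu n).memLp)
    (fun n => (hu n).memLp_deriv) (fun n => (hu n).integral_deriv) ho hθ).2
  have h5 := mul_le_mul_of_nonneg_right hα (sq_nonneg (∑ n, ‖u n 0‖ ^ 2))
  linarith

lemma exists_angle {c : ℝ} (hc : 0 < c) (hc2 : c < π ^ 2 / 4) :
    ∃ θ ∈ Ioo 0 π, c = θ ^ 2 / 4 := by
  have hsq : √c ^ 2 = c := Real.sq_sqrt hc.le
  have h0 : 0 < √c := Real.sqrt_pos.2 hc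
  refine ⟨2 * √c, ⟨by positivity, ?_⟩, by rw [mul_pow, hsq]; ring⟩
  have hπ := pi_pos
  by_contra hcon
  push Not at hcon
  have : π ^ 2 ≤ (2 * √c) ^ 2 := pow_le_pow_left₀ hπ.le hcon 2
  rw [mul_pow, hsq] at this
  linarith

/-- The sharp kinetic inequalities for orthonormal functions on intervals and on the half-line:
for every admissible boundary energy the optimal constant is that of one function. -/
theorem result :
    (∀ c α β : ℝ, 0 < c → (FamilyInequality c α β ↔ OneInequality c α β)) ∧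
    (∀ θ ∈ Ioo 0 π, ∀ α β : ℝ, FamilyInequality (θ ^ 2 / 4) α β ↔
      0 < α + θ / 4 * (cos θ / sin θ) ∧ (θ / (4 * sin θ)) ^ 2 ≤
        (α + θ / 4 * (cos θ / sin θ)) * (β + θ / 4 * (cos θ / sin θ))) ∧
    (∀ c α β : ℝ, π ^ 2 / 4 ≤ c → ¬ OneInequality c α β) ∧
    (∀ c α : ℝ, 0 < c → (FamilyInequalityHalf c α ↔ OneInequalityHalf c α)) ∧
    (∀ θ ∈ Ioo 0 π, ∀ α : ℝ, FamilyInequalityHalf (θ ^ 2 / 4) α ↔
      -(θ / 4 * (cos θ / sin θ)) ≤ α) ∧
    (∀ c α : ℝ, π ^ 2 / 4 ≤ c → ¬ OneInequalityHalf c α) ∧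
    (∀ (N : ℕ) (u g : Fin N → ℝ → ℂ), (∀ n, IsSobolevHalf (u n) (g n)) →
      (∀ n m, ∫ x in Ioi (0:ℝ), star (u n x) * u m x = if n = m then (1 : ℂ) else 0) →
      IntegrableOn (fun x => (∑ n, ‖u n x‖ ^ 2) ^ 3) (Ioi 0)) := by
  have hI : ∀ θ ∈ Ioo 0 π, ∀ α β : ℝ, OneInequality (θ ^ 2 / 4) α β →
      0 < α + θ / 4 * (cos θ / sin θ) ∧ (θ / (4 * sin θ)) ^ 2 ≤
        (α + θ / 4 * (cos θ / sin θ)) * (β + θ / 4 * (cos θ / sin θ)) :=
    fun θ hθ α β h => Pool.Agent.TH662.LT.cond_of_test hθ fun A B hB hAB hA =>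
      test_of_one h hB hAB hA
  have hH : ∀ θ ∈ Ioo 0 π, ∀ α : ℝ, OneInequalityHalf (θ ^ 2 / 4) α →
      -(θ / 4 * (cos θ / sin θ)) ≤ α :=
    fun θ hθ α h => Pool.Agent.TH662.LT.cond_of_test_half hθ fun B hB hB2 =>
      test_of_one_half h hB hB2
  have hno : ∀ c α β : ℝ, π ^ 2 / 4 ≤ c → ¬ OneInequality c α β := fun c α β hc h =>
    Pool.Agent.TH662.LT.no_test hc fun A B hB hAB hA => test_of_one h hB hAB hA
  have hnoH : ∀ c α : ℝ, π ^ 2 / 4 ≤ c → ¬ OneInequalityHalf c α := fun c α hc h =>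
    Pool.Agent.TH662.LT.no_test_half hc fun B hB hB2 => test_of_one_half h hB hB2
  refine ⟨fun c α β hc => ⟨one_of_family, fun h => ?_⟩, fun θ hθ α β =>
    ⟨fun h => hI θ hθ α β (one_of_family h), fun h => family_of_cond hθ h.1 h.2⟩, hno,
    fun c α hc => ⟨one_of_family_half, fun h => ?_⟩, fun θ hθ α =>
    ⟨fun h => hH θ hθ α (one_of_family_half h), fun h => half_of_cond hθ h⟩, hnoH,
    fun N u g hu ho => ?_⟩
  · rcases lt_or_ge c (π ^ 2 / 4) with h2 | h2
    · obtain ⟨θ, hθ, rfl⟩ := exists_angle hc h2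
      obtain ⟨h3, h4⟩ := hI θ hθ α β h
      exact family_of_cond hθ h3 h4
    · exact absurd h (hno c α β h2)
  · rcases lt_or_ge c (π ^ 2 / 4) with h2 | h2
    · obtain ⟨θ, hθ, rfl⟩ := exists_angle hc h2
      exact half_of_cond hθ (hH θ hθ α h)
    · exact absurd h (hnoH c α h2)
  · exact (Pool.Agent.TH662.LT.half_of_orthonormal u g (fun n => (hu n).memLp)
      (fun n => (hu n).memLp_deriv) (fun n => (hu n).integral_deriv) ho
      (θ := π / 2) ⟨by positivity, by linarith [pi_pos]⟩).1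

end Pool.Agent.Results.MP_cfe56d_mp.SharpIntervals
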