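import Pool.Agent.TH233.LTP.Compare
import Pool.Agent.TH233.LTP.Sech

/-!
# The Lieb-Thirring conjecture for tensor products of orthonormal systems
-/

set_option autoImplicit false

open MeasureTheory

namespace Pool.Agent.Results.MP_cfe56d_mp.TensorProducts

/-- `u` belongs to `H¹(E; ℂ)` and has the weak derivatives `g k` in the directions `e k`:
`u` and all `g k` are in `L²(E)`, and `∫ u ∂_k φ = - ∫ g_k φ` for every real test function
`φ ∈ C_c^∞(E)`. -/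
structure IsSobolev {E ι : Type} [NormedAddCommGroup E] [NormedSpace ℝ E] [MeasureSpace E]
    (e : ι → E) (u : E → ℂ) (g : ι → E → ℂ) : Prop where
  memLp : MemLp u 2 volume
  memLp_deriv : ∀ k, MemLp (g k) 2 volume
  weak : ∀ k (φ : E → ℝ), ContDiff ℝ (⊤ : ℕ∞) φ → HasCompactSupport φ →
    ∫ x, u x * (fderiv ℝ φ x (e k) : ℂ) = - ∫ x, g k x * (φ x : ℂ)

/-- An `L²`-orthonormal system of functions of `H¹(E; ℂ)` with the weak derivatives `g`. -/
structure IsSystem {E ι κ : Type} [NormedAddCommGroup E] [NormedSpace ℝ E] [MeasureSpace E]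
    [DecidableEq κ] (e : ι → E) (u : κ → E → ℂ) (g : κ → ι → E → ℂ) : Prop where
  sobolev : ∀ n, IsSobolev e (u n) (g n)
  orthonormal : ∀ n n', ∫ x, (starRingEnd ℂ) (u n x) * u n' x = if n = n' then 1 else 0

/-- The coordinate vectors of `ℝ^m`. -/
def vec {m : ℕ} (k : Fin m) : Fin m → ℝ := Pi.single k 1

/-- The space `ℝ^d = ℝ^(m 0) × ⋯ × ℝ^(m (s-1))`, `d = ∑ i, m i`. -/
abbrev Space {s : ℕ} (m : Fin s → ℕ) : Type := ∀ i, Fin (m i) → ℝ

/-- The coordinate vectors of `ℝ^(m 0) × ⋯ × ℝ^(m (s-1))`. -/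
def bvec {s : ℕ} {m : Fin s → ℕ} (p : Σ i, Fin (m i)) : Space m := Pi.single p.1 (vec p.2)

/-- The tensor products `v_0,n_0 (x_0) ⋯ v_{s-1},n_{s-1} (x_{s-1})`. -/
def tensor {s : ℕ} {m N : Fin s → ℕ} (v : ∀ i, Fin (N i) → (Fin (m i) → ℝ) → ℂ)
    (n : ∀ i, Fin (N i)) (x : Space m) : ℂ := ∏ i, v i (n i) (x i)

/-- The partial derivatives of the tensor products. -/
def tensorDeriv {s : ℕ} {m N : Fin s → ℕ} (v : ∀ i, Fin (N i) → (Fin (m i) → ℝ) → ℂ)
    (g : ∀ i, Fin (N i) → Fin (m i) → (Fin (m i) → ℝ) → ℂ) (n : ∀ i, Fin (N i))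
    (p : Σ i, Fin (m i)) (x : Space m) : ℂ :=
  g p.1 (n p.1) p.2 (x p.1) * ∏ j ∈ Finset.univ.erase p.1, v j (n j) (x j)

/-- The kinetic energy inequality with the constant `K` for the tensor products of arbitrary
orthonormal systems on `ℝ^(m 0), …, ℝ^(m (s-1))`, in dimension `d = ∑ i, m i`. -/
def TensorBound {s : ℕ} (m : Fin s → ℕ) (K : ℝ) : Prop :=
  ∀ (N : Fin s → ℕ) (v : ∀ i, Fin (N i) → (Fin (m i) → ℝ) → ℂ)
    (g : ∀ i, Fin (N i) → Fin (m i) → (Fin (m i) → ℝ) → ℂ), (∀ i, IsSystem vec (v i) (g i)) →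
    K * ∫ x : Space m, (∑ n, ‖tensor v n x‖ ^ 2) ^ (1 + 2 / ((∑ i, m i : ℕ) : ℝ)) ≤
      ∑ n, ∑ p, ∫ x, ‖tensorDeriv v g n p x‖ ^ 2

/-- The constants `K` admissible in the one-particle inequality on `ℝ^(m 0) × ⋯ × ℝ^(m (s-1))`. -/
def AdmissibleOne {s : ℕ} (m : Fin s → ℕ) (K : ℝ) : Prop :=
  ∀ (u : Space m → ℂ) (g : (Σ i, Fin (m i)) → Space m → ℂ), IsSobolev bvec u g →
    K * ((∫ x, ‖u x‖ ^ (2 + 4 / ((∑ i, m i : ℕ) : ℝ))) *
      (∫ x, ‖u x‖ ^ 2) ^ (-(2 / ((∑ i, m i : ℕ) : ℝ)))) ≤ ∑ p, ∫ x, ‖g p x‖ ^ 2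

/-- The semiclassical constant `d / (d + 2) * (2π)² / ω_d ^ (2 / d)`. -/
noncomputable def Kcl (d : ℕ) : ℝ :=
  d / (d + 2) * ((2 * Real.pi) ^ 2 /
    (volume (Metric.ball (0 : EuclideanSpace ℝ (Fin d)) 1)).toReal ^ ((2 : ℝ) / d))

/-- All the decompositions `d = m 0 + ⋯ + m (s-1)` into `s ≥ 2` positive parts, except for
`1 + m`, `2 + 2`, `2 + 3`, `2 + 4`, `1 + 1 + 1` and `1 + 1 + 2`. -/
def Good {s : ℕ} (m : Fin s → ℕ) : Prop :=
  4 ≤ s ∨ (s = 3 ∧ 5 ≤ ∑ i, m i) ∨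
    (s = 2 ∧ (∀ i, 2 ≤ m i) ∧ (7 ≤ ∑ i, m i ∨ ∀ i, 3 ≤ m i))

open Pool.Agent.TH233.LTP in
theorem tensorDeriv_eq {s : ℕ} {m N : Fin s → ℕ} (v : ∀ i, Fin (N i) → (Fin (m i) → ℝ) → ℂ)
    (g : ∀ i, Fin (N i) → Fin (m i) → (Fin (m i) → ℝ) → ℂ) (n : ∀ i, Fin (N i))
    (p : Σ i, Fin (m i)) :
    tensorDeriv v g n p =
      tp (Function.update (fun j => v j (n j)) p.1 (g p.1 (n p.1) p.2)) := by
  funext x
  have h := tp_update' (fun j => v j (n j)) p.1 (g p.1 (n p.1) p.2) x (x p.1)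
  rw [Function.update_eq_self] at h
  rw [h]
  rfl

theorem toW {m N : ℕ} {v : Fin N → (Fin m → ℝ) → ℂ} {g : Fin N → Fin m → (Fin m → ℝ) → ℂ}
    (h : IsSystem vec v g) (a : Fin N) : LTd.WGradC (v a) (g a) :=
  ⟨(h.sobolev a).memLp, (h.sobolev a).memLp_deriv, (h.sobolev a).weak⟩

open Pool.Agent.TH233.LTP in
theorem isSystem {s : ℕ} {m N : Fin s → ℕ} (v : ∀ i, Fin (N i) → (Fin (m i) → ℝ) → ℂ)
    (g : ∀ i, Fin (N i) → Fin (m i) → (Fin (m i) → ℝ) → ℂ)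
    (h : ∀ i, IsSystem vec (v i) (g i)) : IsSystem bvec (tensor v) (tensorDeriv v g) := by
  refine ⟨fun n => ⟨?_, ?_, ?_⟩, ?_⟩
  · exact tp_memLp (fun i => v i (n i)) fun i => ((h i).sobolev (n i)).memLp
  · intro p
    rw [tensorDeriv_eq]
    refine tp_memLp _ fun j => ?_
    by_cases hj : j = p.1
    · subst hj
      rw [Function.update_self]
      exact ((h p.1).sobolev (n p.1)).memLp_deriv p.2
    · rw [Function.update_of_ne hj]
      exact ((h j).sobolev (n j)).memLp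
  · intro p φ hφ hc
    rw [tensorDeriv_eq]
    exact tp_weak (fun i => v i (n i)) (fun i => ((h i).sobolev (n i)).memLp) p.1 p.2
      (g p.1 (n p.1) p.2) (((h p.1).sobolev (n p.1)).memLp_deriv p.2)
      (((h p.1).sobolev (n p.1)).weak p.2) φ hφ hc
  · intro n n'
    have h1 := tp_inner (fun i => v i (n i)) (fun i => v i (n' i))
    refine h1.trans ?_
    rw [Finset.prod_congr rfl fun i _ => (h i).orthonormal (n i) (n' i)]
    by_cases hn : n = n'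
    · subst hn
      simp
    · rw [if_neg hn]
      obtain ⟨i, hi⟩ := Function.ne_iff.1 hn
      exact Finset.prod_eq_zero (Finset.mem_univ i) (if_neg hi)

open Pool.Agent.TH233.LTP in
theorem main {s : ℕ} (m : Fin s → ℕ) (hs : 2 ≤ s) (hm : ∀ i, 1 ≤ m i) (N : Fin s → ℕ)
    (v : ∀ i, Fin (N i) → (Fin (m i) → ℝ) → ℂ)
    (g : ∀ i, Fin (N i) → Fin (m i) → (Fin (m i) → ℝ) → ℂ)
    (h : ∀ i, IsSystem vec (v i) (g i)) :
    (Integrable fun x : Space m =>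
      (∑ n, ‖tensor v n x‖ ^ 2) ^ (1 + 2 / ((∑ i, m i : ℕ) : ℝ))) ∧
    Kt m * ∫ x : Space m, (∑ n, ‖tensor v n x‖ ^ 2) ^ (1 + 2 / ((∑ i, m i : ℕ) : ℝ)) ≤
      ∑ n, ∑ p, ∫ x, ‖tensorDeriv v g n p x‖ ^ 2 := by
  have h1 := Pool.Agent.TH233.LTP.tensor m hm hs N v g (fun i a => toW (h i) a)
    (fun i => (h i).orthonormal)
  refine ⟨h1.1, h1.2.trans_eq ?_⟩
  refine Finset.sum_congr rfl fun n _ => ?_
  rw [Fintype.sum_sigma]
  refine Finset.sum_congr rfl fun i _ => Finset.sum_congr rfl fun k _ => ?_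
  rw [tensorDeriv_eq]

open Pool.Agent.TH233.LTP in
theorem bound_of_le {s : ℕ} (m : Fin s → ℕ) (hs : 2 ≤ s) (hm : ∀ i, 1 ≤ m i) {K : ℝ}
    (hK : K ≤ Kt m) : TensorBound m K := by
  intro N v g h
  have h1 := (main m hs hm N v g h).2
  refine le_trans (mul_le_mul_of_nonneg_right hK ?_) h1
  exact integral_nonneg fun x =>
    Real.rpow_nonneg (Finset.sum_nonneg fun n _ => sq_nonneg _) _

open Pool.Agent.TH233.LTP in
theorem good_le {s : ℕ} (m : Fin s → ℕ) (hm : ∀ i, 1 ≤ m i) (hg : Good m) :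
    ph 1 ^ s * ph (∑ i, m i) ≤ ∏ i, ph (m i + 1) := by
  rcases hg with h | ⟨h, h'⟩ | ⟨h, h', h''⟩
  · exact good_many h m hm
  · subst h
    rw [Fin.sum_univ_three] at h' ⊢
    rw [Fin.prod_univ_three]
    exact good3 (hm 0) (hm 1) (hm 2) h'
  · subst h
    rw [Fin.sum_univ_two] at h'' ⊢
    rw [Fin.prod_univ_two]
    refine good2 ?_
    have h0 := h' 0
    have h1 := h' 1
    rcases h'' with h'' | h''
    · omega
    · exact Or.inl ⟨h'' 0, h'' 1⟩

theorem sum_pos' {s : ℕ} (m : Fin s → ℕ) (hs : 2 ≤ s) (hm : ∀ i, 1 ≤ m i) : 1 ≤ ∑ i, m i := by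
  have h2 : m ⟨0, by omega⟩ ≤ ∑ i, m i :=
    Finset.single_le_sum (f := m) (fun _ _ => Nat.zero_le _) (Finset.mem_univ _)
  exact le_trans (hm _) h2

open Pool.Agent.TH233.LTP in
theorem Kt_two : Kt (fun _ : Fin 2 => 1) = 6 := by
  rw [Kt_ph _ fun _ => le_rfl]
  have h1 : (∏ _i : Fin 2, (ph (1 + 1) / ph 1)) = 3 := by
    rw [Finset.prod_const, Finset.card_univ, Fintype.card_fin, div_pow, ph1]
    have : ph (1 + 1) = Real.pi := ph2
    rw [this]
    have := Real.pi_pos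
    field_simp
  have h2 : ((∑ _i : Fin 2, 1 : ℕ) : ℝ) = 2 := by simp
  rw [h1, h2]
  norm_num

open Pool.Agent.TH233.LTP in
/-- The tensor square of the hyperbolic secant. -/
theorem sech_values :
    (∫ x : Space (fun _ : Fin 2 => 1), ‖tp (m := fun _ : Fin 2 => 1) (fun _ => S) x‖ ^ 2) = 1 ∧
    (∫ x : Space (fun _ : Fin 2 => 1),
      (‖tp (m := fun _ : Fin 2 => 1) (fun _ => S) x‖ ^ 2) ^ 2) = 1 / 9 := by
  constructor
  · rw [tp_int]
    simp only [int_S]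
    simp
  · have h1 : ∀ x : Space (fun _ : Fin 2 => 1),
        (‖tp (m := fun _ : Fin 2 => 1) (fun _ => S) x‖ ^ 2) ^ 2 =
          ∏ i, (‖S (x i)‖ ^ 2) ^ 2 := by
      intro x
      rw [tp_norm, ← Finset.prod_pow]
    simp only [h1]
    have h2 := integral_fintype_prod_volume_eq_prod (𝕜 := ℝ)
      (fun (_ : Fin 2) (y : Fin 1 → ℝ) => (‖S y‖ ^ 2) ^ 2)
    rw [h2]
    simp only [int_S4]
    rw [Finset.prod_const, Finset.card_univ, Fintype.card_fin]
    norm_num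

theorem S_sys : IsSystem (κ := Fin 1) vec (fun _ => Pool.Agent.TH233.LTP.S)
    (fun _ => Pool.Agent.TH233.LTP.S') := by
  have hW := Pool.Agent.TH233.LTP.S_wgrad
  refine ⟨fun _ => ⟨hW.f2, hW.g2, hW.weak⟩, fun n n' => ?_⟩
  rw [Subsingleton.elim n n', if_pos rfl]
  have h3 : ∀ x, (starRingEnd ℂ) (Pool.Agent.TH233.LTP.S x) * Pool.Agent.TH233.LTP.S x =
      ((‖Pool.Agent.TH233.LTP.S x‖ ^ 2 : ℝ) : ℂ) := by
    intro x
    rw [Complex.conj_mul']
    push_cast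
    rfl
  simp only [h3]
  rw [integral_complex_ofReal, Pool.Agent.TH233.LTP.int_S]
  norm_num

open Pool.Agent.TH233.LTP in
theorem deriv_value (n : ∀ _ : Fin 2, Fin 1) (p : Σ _ : Fin 2, Fin 1) :
    ∫ x, ‖tensorDeriv (m := fun _ : Fin 2 => 1) (N := fun _ => 1) (fun _ _ => S)
      (fun _ _ => S') n p x‖ ^ 2 = 1 / 3 := by
  rw [tensorDeriv_eq, tp_int, ← Finset.mul_prod_erase Finset.univ _ (Finset.mem_univ p.1),
    Function.update_self, int_S']
  have h1 : ∏ j ∈ Finset.univ.erase p.1,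
      ∫ y, ‖Function.update (fun _ : Fin 2 => S) p.1 (S' p.2) j y‖ ^ 2 = 1 := by
    refine Finset.prod_eq_one fun j hj => ?_
    rw [Function.update_of_ne (Finset.ne_of_mem_erase hj)]
    exact int_S
  rw [h1, mul_one]

open Pool.Agent.TH233.LTP in
theorem deriv_sum (n : ∀ _ : Fin 2, Fin 1) :
    ∑ p : Σ _ : Fin 2, Fin 1,
    ∫ x, ‖tensorDeriv (m := fun _ : Fin 2 => 1) (N := fun _ => 1) (fun _ _ => S)
      (fun _ _ => S') n p x‖ ^ 2 = 2 / 3 := by
  rw [Finset.sum_congr rfl fun p _ => deriv_value n p]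
  simp
  norm_num

/-- **The Lieb-Thirring conjecture for tensor products.**
(1) Tensor products of orthonormal systems in `H¹(ℝ^(m i))`, `i < s`, `s ≥ 2`, are orthonormal
systems in `H¹(ℝ^d)`, the power `1 + 2 / d` of their density is integrable, and they satisfy the
kinetic energy inequality with the constant `(3 / π) ^ (2 / d) K_d^cl`; they satisfy it with
`K_d^cl` if the decomposition of `d` is `Good`.
(2) For the decomposition `2 = 1 + 1` the optimal constant is `6`, and `K_2^(1) ≤ 6`. -/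
theorem result :
    (∀ (s : ℕ) (m : Fin s → ℕ), 2 ≤ s → (∀ i, 1 ≤ m i) →
      (∀ (N : Fin s → ℕ) (v : ∀ i, Fin (N i) → (Fin (m i) → ℝ) → ℂ)
        (g : ∀ i, Fin (N i) → Fin (m i) → (Fin (m i) → ℝ) → ℂ),
        (∀ i, IsSystem vec (v i) (g i)) → IsSystem bvec (tensor v) (tensorDeriv v g) ∧
        Integrable fun x : Space m =>
          (∑ n, ‖tensor v n x‖ ^ 2) ^ (1 + 2 / ((∑ i, m i : ℕ) : ℝ))) ∧
      TensorBound m ((3 / Real.pi) ^ ((2 : ℝ) / (∑ i, m i : ℕ)) * Kcl (∑ i, m i)) ∧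
      (Good m → TensorBound m (Kcl (∑ i, m i)))) ∧
    IsGreatest {K | TensorBound (fun _ : Fin 2 => 1) K} 6 ∧
    ∀ K, AdmissibleOne (fun _ : Fin 2 => 1) K → K ≤ 6 := by
  refine ⟨fun s m hs hm => ⟨fun N v g h => ⟨isSystem v g h, (main m hs hm N v g h).1⟩, ?_, ?_⟩,
    ⟨?_, ?_⟩, ?_⟩
  · refine bound_of_le m hs hm ?_
    have hpi := Real.pi_pos
    exact Pool.Agent.TH233.LTP.Kt_ge m hm (sum_pos' m hs hm) (by positivity)
      (Pool.Agent.TH233.LTP.low_many hs m hm)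
  · intro hg
    refine bound_of_le m hs hm ?_
    have h1 := Pool.Agent.TH233.LTP.Kt_ge m hm (sum_pos' m hs hm) (θ := 1) zero_le_one
      (by rw [one_mul]; exact good_le m hm hg)
    rwa [Real.one_rpow, one_mul] at h1
  · exact bound_of_le _ le_rfl (fun _ => le_rfl) Kt_two.ge
  · intro K hK
    have h1 := hK (fun _ => 1) (fun _ _ => Pool.Agent.TH233.LTP.S)
      (fun _ _ => Pool.Agent.TH233.LTP.S') (fun _ => S_sys)
    have e1 : ∀ x : Space (fun _ : Fin 2 => 1),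
        (∑ n : ∀ _ : Fin 2, Fin 1, ‖tensor (m := fun _ : Fin 2 => 1) (N := fun _ => 1)
          (fun _ _ => Pool.Agent.TH233.LTP.S) n x‖ ^ 2) =
        ‖Pool.Agent.TH233.LTP.tp (m := fun _ : Fin 2 => 1)
          (fun _ => Pool.Agent.TH233.LTP.S) x‖ ^ 2 := by
      intro x
      rw [Fintype.sum_unique]
      rfl
    have e2 : (1 + 2 / ((∑ _i : Fin 2, 1 : ℕ) : ℝ)) = ((2 : ℕ) : ℝ) := by
      simp
      norm_num
    simp only [e1] at h1
    rw [e2] at h1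
    simp only [Real.rpow_natCast] at h1
    rw [sech_values.2, Fintype.sum_unique, deriv_sum] at h1
    linarith
  · intro K hK
    have hsys := isSystem (m := fun _ : Fin 2 => 1) (N := fun _ => 1)
      (fun _ _ => Pool.Agent.TH233.LTP.S) (fun _ _ => Pool.Agent.TH233.LTP.S') (fun _ => S_sys)
    have h1 := hK _ _ (hsys.sobolev fun _ => 0)
    have e1 : ∀ x : Space (fun _ : Fin 2 => 1),
        tensor (m := fun _ : Fin 2 => 1) (N := fun _ => 1)
          (fun _ _ => Pool.Agent.TH233.LTP.S) (fun _ => 0) x =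
        Pool.Agent.TH233.LTP.tp (m := fun _ : Fin 2 => 1)
          (fun _ => Pool.Agent.TH233.LTP.S) x := fun x => rfl
    have e2 : (2 + 4 / ((∑ _i : Fin 2, 1 : ℕ) : ℝ)) = ((4 : ℕ) : ℝ) := by
      simp
      norm_num
    have e3 : ∀ x : Space (fun _ : Fin 2 => 1),
        ‖Pool.Agent.TH233.LTP.tp (m := fun _ : Fin 2 => 1)
          (fun _ => Pool.Agent.TH233.LTP.S) x‖ ^ 4 =
        (‖Pool.Agent.TH233.LTP.tp (m := fun _ : Fin 2 => 1)
          (fun _ => Pool.Agent.TH233.LTP.S) x‖ ^ 2) ^ 2 := fun x => by ring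
    simp only [e1] at h1
    rw [e2] at h1
    simp only [Real.rpow_natCast] at h1
    simp only [e3] at h1
    rw [sech_values.1, sech_values.2, Real.one_rpow, deriv_sum] at h1
    linarith

end Pool.Agent.Results.MP_cfe56d_mp.TensorProducts
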